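import Mathlib

set_option autoImplicit false

namespace Pool.Agent.H.MP_7de1bc_an

open Filter Topology Set Finset UniformSpace
open scoped NNReal

abbrev U := ℚ →₀ ℝ

noncomputable def χ (t : ℝ) (q : ℚ) : ℝ := if (q : ℝ) < t then 1 else 0
noncomputable def S (t : ℝ) : U →ₗ[ℝ] ℝ := Finsupp.linearCombination ℝ (χ t)
noncomputable def A (v : U) (t : ℝ) : ℝ := ∑ q ∈ v.support, |v q| * χ t q

lemma sm (v : U) : Summable fun q => |v q| :=
  summable_of_ne_finset_zero (s := v.support) fun g hg => by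
    rw [Finsupp.notMem_support_iff.1 hg, abs_zero]

noncomputable def L1 : Seminorm ℝ U := Seminorm.of (fun v => ∑' q, |v q|)
  (fun u v => by
    rw [← (sm u).tsum_add (sm v)]
    exact (sm _).tsum_le_tsum (fun q => abs_add_le _ _) ((sm u).add (sm v)))
  fun a v => by simp [abs_mul, tsum_mul_left]

lemma L1_eq (v : U) : L1 v = ∑ q ∈ v.support, |v q| :=
  tsum_eq_sum fun g hg => by rw [Finsupp.notMem_support_iff.1 hg, abs_zero]

lemma χ0 (t : ℝ) (q : ℚ) : 0 ≤ χ t q ∧ χ t q ≤ 1 := by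
  unfold χ
  split_ifs <;> norm_num

lemma A0 (v : U) (t : ℝ) : 0 ≤ A v t ∧ A v t ≤ L1 v :=
  ⟨sum_nonneg fun q _ => mul_nonneg (abs_nonneg _) (χ0 t q).1, (sum_le_sum fun q _ =>
    mul_le_of_le_one_right (abs_nonneg _) (χ0 t q).2).trans_eq (L1_eq v).symm⟩

lemma S_le (v : U) (t : ℝ) : |S t v| ≤ L1 v :=
  (abs_sum_le_sum_abs _ _).trans ((sum_le_sum fun q _ => (abs_mul (v q) (χ t q)).trans_le (by
    rw [abs_of_nonneg (χ0 t q).1])).trans (A0 v t).2)

lemma S_sub (v : U) {s t : ℝ} (h : s ≤ t) : |S t v - S s v| ≤ A v t - A v s := by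
  simp only [S, A, Finsupp.linearCombination_apply, Finsupp.sum, ← sum_sub_distrib, smul_eq_mul,
    ← mul_sub]
  refine (abs_sum_le_sum_abs _ _).trans (sum_le_sum fun q _ => ?_)
  rw [abs_mul, abs_of_nonneg (a := χ t q - _)]
  unfold χ
  split_ifs with h1 h2 h2 <;> linarith

lemma signs {E : Type} [NormedAddCommGroup E] [InnerProductSpace ℝ E] (w : ℕ → E) (N : ℕ) :
    ∃ ε : ℕ → ℝ, (∀ i, |ε i| = 1) ∧ ‖∑ i ∈ range N, ε i • w i‖ ^ 2 ≤ ∑ i ∈ range N, ‖w i‖ ^ 2 := by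
  induction N with
  | zero => exact ⟨1, by simp, by simp⟩
  | succ N ih =>
    obtain ⟨ε, h1, h2⟩ := ih
    obtain ⟨σ, s1, s2⟩ : ∃ σ : ℝ, |σ| = 1 ∧ σ * inner ℝ (∑ i ∈ range N, ε i • w i) (w N) ≤ 0 := by
      rcases le_total (inner ℝ (∑ i ∈ range N, ε i • w i) (w N)) 0 with h | h
      · exact ⟨1, by simp, by linarith⟩
      · exact ⟨-1, by simp, by linarith⟩
    refine ⟨Function.update ε N σ, fun i => ?_, ?_⟩
    · rcases eq_or_ne i N with rfl | h
      · simpa using s1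
      · simpa [h] using h1 i
    · rw [sum_range_succ, sum_range_succ, Function.update_self, sum_congr rfl fun i hi => by
        rw [Function.update_of_ne (mem_range.1 hi).ne], norm_add_sq_real, inner_smul_right,
        norm_smul, Real.norm_eq_abs, s1, one_mul]
      linarith

lemma cancel (v : ℕ → U) {R : ℝ} (hR : 0 < R) (h : ∀ i, L1 (v i) ≤ R) (M : ℕ) :
    ∃ ε : ℕ → ℝ, (∀ i, |ε i| = 1) ∧ ∀ t, |S t (∑ i ∈ range ((M + 1) ^ 3), ε i • v i)| ≤
      2 * R * (M + 1) ^ 2 := by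
  set μ := fun t => ∑ i ∈ range ((M + 1) ^ 3), A (v i) t with hμ
  set d := R * (M + 1) ^ 2 * 1 with hd
  have d0 : 0 < d := by positivity
  set cl := fun t => min ⌊μ t / d⌋₊ M with hcl
  have m0 : ∀ t, 0 ≤ μ t / d := fun t => div_nonneg (sum_nonneg fun i _ => (A0 _ t).1) d0.le
  have m1 : ∀ t, μ t / d ≤ M + 1 := fun t => by
    rw [div_le_iff₀ d0]
    refine (sum_le_card_nsmul _ _ R fun i _ => (A0 _ t).2.trans (h i)).trans_eq ?_
    simp [hd]
    ring
  have c1 : ∀ t, (cl t : ℝ) ≤ μ t / d ∧ μ t / d ≤ cl t + 1 := fun t => by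
    simp only [hcl, Nat.cast_min]
    exact ⟨(min_le_left _ _).trans (Nat.floor_le (m0 t)), by
      rw [← min_add_add_right]
      exact le_min (Nat.lt_floor_add_one _).le (m1 t)⟩
  have c2 : ∀ s t, cl s = cl t → ∑ i ∈ range ((M + 1) ^ 3), |S t (v i) - S s (v i)| ≤ d := by
    have : ∀ s t, s ≤ t → cl s = cl t →
        ∑ i ∈ range ((M + 1) ^ 3), |S t (v i) - S s (v i)| ≤ d := fun s t h1 h2 => by
      refine (sum_le_sum fun i _ => S_sub (v i) h1).trans ?_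
      rw [sum_sub_distrib, ← div_le_one d0, sub_div]
      linarith [(c1 s).1, (c1 t).2, show (cl s : ℝ) = cl t by rw [h2]]
    intro s t h2
    rcases le_total s t with h1 | h1
    · exact this s t h1 h2
    · simpa only [abs_sub_comm] using this t s h1 h2.symm
  obtain ⟨ε, e1, e2⟩ := signs (E := EuclideanSpace ℝ (Fin (M + 1))) (fun i => WithLp.toLp 2
    fun j => S (Function.invFun cl j) (v i)) ((M + 1) ^ 3)
  refine ⟨ε, e1, fun t => ?_⟩
  have e3 := (pow_le_pow_left₀ (norm_nonneg _) (PiLp.norm_apply_le (β := fun _ => ℝ) _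
    (⟨cl t, Nat.lt_succ_of_le (min_le_right _ _)⟩ : Fin (M + 1))) 2).trans (e2.trans
      (sum_le_card_nsmul _ _ ((M + 1) * R ^ 2) fun i _ => by
        rw [EuclideanSpace.real_norm_sq_eq]
        refine (sum_le_card_nsmul _ _ (R ^ 2) fun j _ => ?_).trans_eq (by simp)
        exact sq_le_sq' (by linarith [abs_le.1 ((S_le (v i) (Function.invFun cl j)).trans (h i))])
          (abs_le.1 ((S_le _ _).trans (h i))).2))
  have e4 := c2 _ t (Function.invFun_eq ⟨t, rfl⟩)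
  simp only [WithLp.ofLp_sum, WithLp.ofLp_smul, Finset.sum_apply, Pi.smul_apply, smul_eq_mul,
    Real.norm_eq_abs, card_range, nsmul_eq_mul] at e3
  set s := Function.invFun cl (cl t)
  have e5 : |∑ i ∈ range ((M + 1) ^ 3), ε i * S s (v i)| ≤ d :=
    le_of_sq_le_sq (e3.trans_eq (by push_cast; ring)) d0.le
  have e6 : |∑ i ∈ range ((M + 1) ^ 3), ε i * (S t (v i) - S s (v i))| ≤ d :=
    (abs_sum_le_sum_abs _ _).trans ((sum_le_sum fun i _ => by
      rw [abs_mul, e1, one_mul]).trans e4)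
  simp only [map_sum, map_smul, smul_eq_mul, mul_sub, sum_sub_distrib] at e6 ⊢
  linarith [abs_sub_abs_le_abs_sub (∑ i ∈ range ((M + 1) ^ 3), ε i * S t (v i))
    (∑ i ∈ range ((M + 1) ^ 3), ε i * S s (v i))]

noncomputable def Li : Seminorm ℝ U := ⨆ t, (normSeminorm ℝ ℝ).comp (S t)

lemma Li_bdd : BddAbove (range fun t => (normSeminorm ℝ ℝ).comp (S t)) :=
  ⟨L1, by
    rintro _ ⟨t, rfl⟩ v
    exact S_le v t⟩

lemma le_Li (v : U) (t : ℝ) : |S t v| ≤ Li v := le_ciSup Li_bdd t v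

lemma Li_le {v : U} {C : ℝ} (h : ∀ t, |S t v| ≤ C) : Li v ≤ C := by
  rw [Li, Seminorm.iSup_apply Li_bdd]
  exact ciSup_le h

noncomputable def N (k : ℕ) : Seminorm ℝ U := ((k + 1 : ℝ≥0)⁻¹ • L1) ⊓ ((k + 1 : ℝ≥0) • Li)

lemma N_eq (k : ℕ) (u : U) : N k u = ⨅ v, (k + 1 : ℝ)⁻¹ * L1 v + (k + 1) * Li (u - v) := by
  simp [N, Seminorm.inf_apply, NNReal.smul_def]

lemma N0 (k : ℕ) (u v : U) : N k u ≤ (k + 1 : ℝ)⁻¹ * L1 v + (k + 1) * Li (u - v) :=
  (N_eq k u).trans_le (ciInf_le ⟨0, forall_mem_range.2 fun _ => by positivity⟩ v)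

lemma N1 (k : ℕ) (u : U) : N k u ≤ (k + 1 : ℝ)⁻¹ * L1 u := by simpa using N0 k u u

lemma N2 (k : ℕ) (u : U) : N k u ≤ (k + 1 : ℝ) * Li u := by simpa using N0 k u 0

noncomputable def P : Seminorm ℝ U := ⨆ k, N k

lemma N3 (k : ℕ) (u : U) : N k u ≤ L1 u :=
  (N1 k u).trans (mul_le_of_le_one_left (apply_nonneg _ _) (inv_le_one_of_one_le₀ (by simp)))

lemma P_bdd : BddAbove (range N) := ⟨L1, by
  rintro _ ⟨k, rfl⟩ v
  exact N3 k v⟩

lemma le_P (k : ℕ) (u : U) : N k u ≤ P u := le_ciSup (f := N) P_bdd k u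

lemma P_le {u : U} {C : ℝ} (h : ∀ k, N k u ≤ C) : P u ≤ C := by
  rw [P, Seminorm.iSup_apply P_bdd]
  exact ciSup_le h

lemma S_P (u : U) (t : ℝ) : |S t u| ≤ P u := by
  refine le_trans ?_ (le_P 0 u)
  rw [N_eq]
  refine le_ciInf fun v => ?_
  have := abs_add_le (S t v) (S t (u - v))
  rw [← map_add, add_sub_cancel] at this
  simpa using this.trans (add_le_add (S_le v t) (le_Li _ t))

lemma block (u : ℕ → U) {B : ℝ} (h : ∀ i, P (u i) < B) {η : ℝ} (hη : 0 < η) :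
    ∃ n, ∃ a : ℕ → ℝ, ∑ i ∈ range n, |a i| = 1 ∧ Li (∑ i ∈ range n, a i • u i) ≤ η := by
  have B0 : 0 < B := (apply_nonneg _ _).trans_lt (h 0)
  obtain ⟨k, hk⟩ := exists_nat_gt (2 * B / η)
  obtain ⟨M, hM⟩ := exists_nat_gt (4 * ((k + 1) * B) / η)
  rw [div_lt_iff₀ hη] at hk hM
  have : ∀ i, ∃ v, (k + 1 : ℝ)⁻¹ * L1 v + (k + 1) * Li (u i - v) < B := fun i =>
    exists_lt_of_ciInf_lt ((N_eq k _).symm.trans_lt ((le_P k _).trans_lt (h i)))
  choose v hv using this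
  have k0 : (0 : ℝ) < k + 1 := by positivity
  obtain ⟨ε, e1, e2⟩ := cancel v (R := (k + 1) * B) (by positivity) (fun i => by
    rw [← inv_mul_le_iff₀ k0]
    linarith [hv i, mul_nonneg k0.le (apply_nonneg Li (u i - v i))]) M
  have m0 : (0 : ℝ) < (M + 1) ^ 3 := by positivity
  refine ⟨(M + 1) ^ 3, fun i => ((M + 1) ^ 3 : ℝ)⁻¹ * ε i, ?_, Li_le fun t => ?_⟩
  · simp [abs_mul, e1, abs_of_pos (show (0 : ℝ) < M + 1 by positivity), m0.ne']
  have e3 : |S t (∑ i ∈ range ((M + 1) ^ 3), ε i • (u i - v i))| ≤ (M + 1) ^ 3 * (η / 2) := by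
    rw [map_sum]
    refine (abs_sum_le_sum_abs _ _).trans ((sum_le_card_nsmul _ _ (η / 2) fun i _ => ?_).trans_eq
      (by simp))
    rw [map_smul, smul_eq_mul, abs_mul, e1, one_mul]
    refine (le_Li _ t).trans (le_of_mul_le_mul_left ?_ k0)
    nlinarith [hv i, mul_nonneg (inv_pos.2 k0).le (apply_nonneg L1 (v i))]
  have e4 := (abs_add_le _ _).trans (add_le_add (e2 t) e3)
  simp only [← map_add, ← sum_add_distrib, ← smul_add, add_sub_cancel] at e4
  simp only [mul_smul, ← smul_sum, map_smul, smul_eq_mul, abs_mul, abs_of_pos (inv_pos.2 m0),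
    inv_mul_le_iff₀ m0]
  nlinarith [mul_le_mul_of_nonneg_left hM.le (sq_nonneg (M + 1 : ℝ)),
    mul_nonneg (sq_nonneg (M + 1 : ℝ)) hη.le]

lemma hump (u : ℕ → U) {B : ℝ} (h : ∀ i, P (u i) < B) {ε : ℝ} (hε : 0 < ε) (K : ℕ) :
    ∃ n, ∃ a : ℕ → ℝ, ∑ i ∈ range n, |a i| = K ∧ P (∑ i ∈ range n, a i • u i) ≤ B + K * ε := by
  have B0 : 0 < B := (apply_nonneg _ _).trans_lt (h 0)
  induction K with
  | zero => exact ⟨0, 0, by simp, by simp [B0.le]⟩
  | succ K ih =>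
    obtain ⟨n, a, a1, a2⟩ := ih
    set z := ∑ i ∈ range n, a i • u i
    obtain ⟨k₀, hk⟩ := exists_nat_gt (L1 z / ε)
    obtain ⟨m, b, b1, b2⟩ := block (fun i => u (n + i)) (fun i => h _)
      (η := ε / (k₀ + 1)) (by positivity)
    have b3 : P (∑ i ∈ range m, b i • u (n + i)) ≤ B :=
      (Finset.le_sum_of_subadditive P (map_zero P).le (map_add_le_add P) _ _).trans
        ((sum_le_sum fun i _ => (map_smul_eq_mul P _ _).trans_le
          (mul_le_mul_of_nonneg_left (h _).le (abs_nonneg _))).trans_eq (by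
            simp only [← sum_mul, Real.norm_eq_abs, b1, one_mul]))
    refine ⟨n + m, fun i => if i < n then a i else b (i - n), ?_, ?_⟩
    · rw [sum_range_add, sum_congr rfl (g := fun i => |a i|) fun i hi => by
        simp only [if_pos (mem_range.1 hi)], a1]
      simp [b1]
    rw [sum_range_add, sum_congr rfl (g := fun i => a i • u i) fun i hi => by
      simp only [if_pos (mem_range.1 hi)]]
    simp only [add_lt_iff_neg_left, not_lt_zero, if_false, add_tsub_cancel_left]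
    refine P_le fun k => (map_add_le_add _ _ _).trans ?_
    push_cast
    rcases le_total k k₀ with hk' | hk'
    · have h1 := (N2 k _).trans (mul_le_mul (show (k + 1 : ℝ) ≤ k₀ + 1 by gcongr) b2
        (apply_nonneg _ _) (by positivity))
      rw [mul_div_cancel₀ _ (by positivity)] at h1
      linarith [le_P k z]
    · have h1 : N k z ≤ ε := (N1 k z).trans (by
        rw [inv_mul_le_iff₀ (by positivity)]
        rw [div_lt_iff₀ hε] at hk
        nlinarith [show (k₀ : ℝ) ≤ k by exact_mod_cast hk'])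
      linarith [(le_P k _).trans b3, mul_nonneg (Nat.cast_nonneg K) hε.le]

def V : Type := U

noncomputable instance : SeminormedAddCommGroup V :=
  AddGroupSeminorm.toSeminormedAddCommGroup (E := U) P.toAddGroupSeminorm
noncomputable instance : NormedSpace ℝ V :=
  { (inferInstance : Module ℝ U) with norm_smul_le := fun a v => (map_smul_eq_mul P a v).le }

noncomputable def j : U →ₗ[ℝ] V := ⟨⟨fun v => v, fun _ _ => rfl⟩, fun _ _ => rfl⟩

noncomputable def J : U →ₗ[ℝ] Completion V := Completion.toComplₗᵢ.toLinearMap ∘ₗ j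

lemma J_norm (u : U) : ‖J u‖ = P u := Completion.norm_coe (j u)

lemma J_dense : DenseRange J := Completion.denseRange_coe (α := V)

instance : TopologicalSpace.SeparableSpace (Completion V) := by
  have := (countable_range fun q : ℚ => J (Finsupp.single q 1)).isSeparable.span (R := ℝ)
  rw [show (fun q : ℚ => J (Finsupp.single q 1)) = J ∘ Finsupp.basisSingleOne from rfl,
    range_comp, ← Submodule.map_span, Module.Basis.span_eq, Submodule.map_top] at this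
  exact TopologicalSpace.isSeparable_univ_iff.1 (J_dense.closure_range ▸ this.closure)

lemma no_l1 : ¬ ∃ (T : lp (fun _ : ℕ => ℝ) (1 : ENNReal) →L[ℝ] Completion V) (c : ℝ),
    0 < c ∧ ∀ y, c * ‖y‖ ≤ ‖T y‖ := by
  rintro ⟨T, c, c0, hc⟩
  choose u hu using fun i => J_dense.exists_dist_lt (T (lp.single 1 i 1)) (half_pos c0)
  have h : ∀ i, P (u i) < ‖T‖ + c / 2 := fun i => by
    have h1 := T.le_opNorm (lp.single 1 i 1)
    have h2 := norm_sub_norm_le (J (u i)) (T (lp.single 1 i 1))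
    rw [lp.norm_single one_pos, norm_one, mul_one] at h1
    rw [J_norm, ← dist_eq_norm, dist_comm] at h2
    linarith [hu i]
  obtain ⟨K, hK⟩ := exists_nat_gt ((‖T‖ + c / 2) / (c / 4))
  obtain ⟨n, a, a1, a2⟩ := hump u h (show 0 < c / 4 by positivity) K
  have h1 := lp.norm_sum_single (E := fun _ : ℕ => ℝ) (p := 1) (by simp) a (range n)
  simp only [ENNReal.toReal_one, Real.rpow_one, Real.norm_eq_abs, a1] at h1
  have h2 := hc (∑ i ∈ range n, lp.single 1 i (a i))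
  have h3 : ‖T (∑ i ∈ range n, lp.single 1 i (a i)) -
      J (∑ i ∈ range n, a i • u i)‖ ≤ K * (c / 2) := by
    rw [map_sum, map_sum, ← sum_sub_distrib, ← a1, sum_mul]
    refine norm_sum_le_of_le _ fun i _ => ?_
    rw [show lp.single 1 i (a i) = a i • lp.single (E := fun _ : ℕ => ℝ) 1 i 1 by
      rw [← lp.single_smul, smul_eq_mul, mul_one], map_smul, map_smul, ← smul_sub, norm_smul,
      ← dist_eq_norm]
    exact mul_le_mul_of_nonneg_left (hu i).le (abs_nonneg _)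
  rw [div_lt_iff₀ (by positivity)] at hK
  rw [h1] at h2
  rw [← J_norm] at a2
  linarith [norm_sub_norm_le (T (∑ i ∈ range n, lp.single 1 i (a i)))
    (J (∑ i ∈ range n, a i • u i))]

noncomputable def δ (t : ℝ) : Completion V →L[ℝ] ℝ := (S t).extendOfNorm J

lemma δ_J (t : ℝ) (v : U) : δ t (J v) = S t v :=
  LinearMap.extendOfNorm_eq J_dense ⟨1, fun v => by
    rw [one_mul, J_norm]
    exact S_P v t⟩ v

lemma δ_ex (l r : ℝ) (h : l < r) :
    ∃ x, ‖x‖ ≤ 1 ∧ (∀ t, r ≤ t → δ t x = 1) ∧ ∀ t, t ≤ l → δ t x = 0 := by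
  obtain ⟨q, q1, q2⟩ := exists_rat_btwn h
  refine ⟨J (Finsupp.single q 1), (J_norm _).trans_le (P_le fun k =>
    (N3 k _).trans_eq (by simp [L1_eq])), fun t ht => ?_, fun t ht => ?_⟩
  · simp [δ_J, S, χ, q2.trans_le ht]
  · simp [δ_J, S, χ, (ht.trans q1.le).not_gt]

lemma no_wcr {X : Type} [NormedAddCommGroup X] [NormedSpace ℝ X] (δ : ℝ → X →L[ℝ] ℝ)
    (hδ : ∀ l r : ℝ, l < r → ∃ x, ‖x‖ ≤ 1 ∧ (∀ t, r ≤ t → δ t x = 1) ∧ ∀ t, t ≤ l → δ t x = 0)
    (p : Seminorm ℝ X) {a b : ℝ} (a0 : 0 < a) (b0 : 0 < b)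
    (hp : ∀ x : X, a * ‖x‖ ≤ p x ∧ p x ≤ b * ‖x‖) : ∃ u : ℕ → X, (∀ n, p (u n) = 1) ∧
      Tendsto (fun k : ℕ × ℕ => p (u k.1 + u k.2)) atTop (𝓝 2) ∧
        ∃ f : X →L[ℝ] ℝ, ¬ CauchySeq fun n => f (u n) := by
  set C := fun l r : ℝ => {x | (∀ t, r ≤ t → δ t x = 1) ∧ ∀ t, t ≤ l → δ t x = 0} with hC
  set m := fun l r : ℝ => sInf (p '' C l r) with hm
  have bd : ∀ l r, BddBelow (p '' C l r) := fun l r => ⟨0, by
    rintro _ ⟨x, -, rfl⟩
    exact apply_nonneg _ _⟩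
  have m1 : ∀ {l r x}, x ∈ C l r → m l r ≤ p x := fun hx => csInf_le (bd _ _) ⟨_, hx, rfl⟩
  have ne : ∀ {l r}, l < r → (p '' C l r).Nonempty := fun h =>
    (hδ _ _ h).elim fun x hx => ⟨_, x, hx.2, rfl⟩
  have m2 : ∀ {l r}, l < r → m l r ≤ b := fun h => (hδ _ _ h).elim fun x hx =>
    (m1 hx.2).trans ((hp x).2.trans (mul_le_of_le_one_right b0.le hx.1))
  have sub : ∀ {l r l' r'}, l ≤ l' → r' ≤ r → C l' r' ⊆ C l r := fun h1 h2 x hx =>
    ⟨fun t ht => hx.1 t (h2.trans ht), fun t ht => hx.2 t (ht.trans h1)⟩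
  have m3 : ∀ {l r l' r'}, l ≤ l' → l' < r' → r' ≤ r → m l r ≤ m l' r' := fun h1 h h2 =>
    csInf_le_csInf (bd _ _) (ne h) (image_mono (sub h1 h2))
  have step : ∀ (n : ℕ) (I : {I : ℝ × ℝ // I.1 < I.2}), ∃ J : {I : ℝ × ℝ // I.1 < I.2},
      I.1.1 < J.1.1 ∧ J.1.2 < I.1.2 ∧ ∀ s s', I.1.1 ≤ s → s < s' → s' ≤ I.1.2 →
        m s s' ≤ m J.1.1 J.1.2 + 1 / ((n : ℝ) + 1) := fun n I => by
    obtain ⟨_, ⟨s, s', h1, h2, h3, rfl⟩, h4⟩ := Real.add_neg_lt_sSup
      (s := {y | ∃ s s', I.1.1 ≤ s ∧ s < s' ∧ s' ≤ I.1.2 ∧ m s s' = y})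
      ⟨_, _, _, le_rfl, I.2, le_rfl, rfl⟩ (ε := -(1 / ((n : ℝ) + 1)))
      (neg_neg_of_pos (by positivity))
    refine ⟨⟨((2 * s + s') / 3, (s + 2 * s') / 3), by linarith⟩, by linarith, by linarith,
      fun t t' k1 k2 k3 => ?_⟩
    have k4 := le_csSup (s := {y | ∃ s s', I.1.1 ≤ s ∧ s < s' ∧ s' ≤ I.1.2 ∧ m s s' = y})
      ⟨b, by
        rintro _ ⟨s, s', -, h, -, rfl⟩
        exact m2 h⟩ ⟨t, t', k1, k2, k3, rfl⟩
    linarith [m3 (l := s) (r := s') (l' := (2 * s + s') / 3) (r' := (s + 2 * s') / 3)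
      (by linarith) (by linarith) (by linarith)]
  choose f f1 f2 f3 using step
  set I : ℕ → {I : ℝ × ℝ // I.1 < I.2} := fun n => Nat.rec ⟨(0, 1), zero_lt_one⟩ f n with hI
  have l1 : StrictMono fun n => (I n).1.1 := strictMono_nat_of_lt_succ fun n => f1 n (I n)
  have r1 : StrictAnti fun n => (I n).1.2 := strictAnti_nat_of_succ_lt fun n => f2 n (I n)
  have lr : ∀ i j, (I i).1.1 ≤ (I j).1.2 := fun i j => (l1.monotone (le_max_left i j)).trans
    ((I _).2.le.trans (r1.antitone (le_max_right i j)))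
  set t := ⨆ n, (I n).1.1 with ht
  have t1 : ∀ n, (I n).1.1 < t := fun n => (l1 n.lt_succ_self).trans_le
    (le_ciSup (f := fun n => (I n).1.1) ⟨_, forall_mem_range.2 fun i => lr i 0⟩ (n + 1))
  have t2 : ∀ n, t < (I n).1.2 := fun n => (ciSup_le fun i => lr i (n + 1)).trans_lt
    (r1 n.lt_succ_self)
  have mo : Monotone fun n => m (I n).1.1 (I n).1.2 := fun i j h =>
    m3 (l1.monotone h) (I j).2 (r1.antitone h)
  have lim := tendsto_atTop_ciSup mo ⟨b, forall_mem_range.2 fun n => m2 (I n).2⟩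
  set c := ⨆ n, m (I n).1.1 (I n).1.2
  have ex : ∀ n, ∃ x ∈ C (I n).1.1 (I n).1.2, δ t x = (if Even n then 1 else 0) ∧
      p x < m (I (n + 1)).1.1 (I (n + 1)).1.2 + 1 / ((n : ℝ) + 1) + 1 / ((n : ℝ) + 1) :=
    fun n => by
    have e0 : 0 < 1 / ((n : ℝ) + 1) := by positivity
    split_ifs
    · obtain ⟨_, ⟨x, hx, rfl⟩, h⟩ := Real.lt_sInf_add_pos (ne (t1 n)) e0
      exact ⟨x, sub le_rfl (t2 n).le hx, hx.1 t le_rfl,
        h.trans_le (add_le_add_left (f3 n (I n) _ _ le_rfl (t1 n) (t2 n).le) _)⟩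
    · obtain ⟨_, ⟨x, hx, rfl⟩, h⟩ := Real.lt_sInf_add_pos (ne (t2 n)) e0
      exact ⟨x, sub (t1 n).le le_rfl hx, hx.2 t le_rfl,
        h.trans_le (add_le_add_left (f3 n (I n) _ _ (t1 n).le (t2 n) le_rfl) _)⟩
  choose x x1 x2 x3 using ex
  have pl : Tendsto (fun n => p (x n)) atTop (𝓝 c) := by
    have := ((lim.comp (tendsto_add_atTop_nat 1)).add tendsto_one_div_add_atTop_nhds_zero_nat).add
      tendsto_one_div_add_atTop_nhds_zero_nat
    rw [add_zero, add_zero] at this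
    exact tendsto_of_tendsto_of_tendsto_of_le_of_le lim this (fun n => m1 (x1 n))
      fun n => (x3 n).le
  have lo : ∀ y ∈ C 0 1, a ≤ ‖δ 1‖ * p y := fun y hy => by
    have := (δ 1).le_opNorm y
    rw [hy.1 1 le_rfl, norm_one] at this
    nlinarith [mul_le_mul_of_nonneg_left (hp y).1 (norm_nonneg (δ 1))]
  have lo' := fun n => lo _ (sub (l1.monotone n.zero_le) (r1.antitone n.zero_le) (x1 n))
  have p0 : ∀ n, 0 < p (x n) := fun n =>
    pos_of_mul_pos_left (a0.trans_le ((lo' n).trans_eq (mul_comm _ _))) (norm_nonneg _)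
  have c0 : c ≠ 0 := fun h => by
    have := ge_of_tendsto' (pl.const_mul ‖δ 1‖) lo'
    rw [h, mul_zero] at this
    exact this.not_gt a0
  have n1 : ∀ n, p ((p (x n))⁻¹ • x n) = 1 := fun n => by
    rw [map_smul_eq_mul, norm_inv, Real.norm_of_nonneg (p0 n).le, inv_mul_cancel₀ (p0 n).ne']
  have ti := pl.inv₀ c0
  have s1 : Tendsto (Prod.fst : ℕ × ℕ → ℕ) atTop atTop := by
    rw [← prod_atTop_atTop_eq]
    exact tendsto_fst
  have s2 : Tendsto (Prod.snd : ℕ × ℕ → ℕ) atTop atTop := by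
    rw [← prod_atTop_atTop_eq]
    exact tendsto_snd
  have s3 := ((ti.comp s1).add (ti.comp s2)).mul (lim.comp (tendsto_atTop.2 fun b =>
    (eventually_ge_atTop (b, b)).mono fun (k : ℕ × ℕ) hk => le_min hk.1 hk.2))
  rw [add_mul, inv_mul_cancel₀ c0, one_add_one_eq_two] at s3
  refine ⟨fun n => (p (x n))⁻¹ • x n, n1, tendsto_of_tendsto_of_tendsto_of_le_of_le s3
    tendsto_const_nhds (fun k => ?_) fun k => (map_add_le_add p _ _).trans_eq (by
      rw [n1, n1, one_add_one_eq_two]), δ t, fun h => ?_⟩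
  · have y1 := sub (l1.monotone (min_le_left k.1 k.2)) (r1.antitone (min_le_left k.1 k.2)) (x1 k.1)
    have y2 := sub (l1.monotone (min_le_right k.1 k.2)) (r1.antitone (min_le_right k.1 k.2)) (x1 k.2)
    have q : 0 < (p (x k.1))⁻¹ + (p (x k.2))⁻¹ := add_pos (inv_pos.2 (p0 _)) (inv_pos.2 (p0 _))
    have := m1 (l := (I (min k.1 k.2)).1.1) (r := (I (min k.1 k.2)).1.2) (x := ((p (x k.1))⁻¹ + (p (x k.2))⁻¹)⁻¹ • ((p (x k.1))⁻¹ • x k.1 +
      (p (x k.2))⁻¹ • x k.2)) ⟨fun s hs => by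
        simp only [map_smul, map_add, y1.1 s hs, y2.1 s hs, smul_eq_mul, mul_one,
          inv_mul_cancel₀ q.ne'],
        fun s hs => by simp [y1.2 s hs, y2.2 s hs]⟩
    rwa [map_smul_eq_mul, norm_inv, Real.norm_of_nonneg q.le, le_inv_mul_iff₀ q] at this
  obtain ⟨l, hl⟩ := cauchySeq_tendsto_of_complete h
  have s0 : Tendsto (fun n : ℕ => 2 * n) atTop atTop := tendsto_id.const_mul_atTop' two_pos
  have l1 := tendsto_nhds_unique (hl.comp s0) ((ti.comp s0).congr fun n => by simp [x2])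
  have l2 := tendsto_nhds_unique (hl.comp ((tendsto_add_atTop_nat 1).comp s0))
    ((tendsto_const_nhds (x := (0 : ℝ))).congr fun n => by simp [x2])
  exact inv_ne_zero c0 (l1.symm.trans l2)

end Pool.Agent.H.MP_7de1bc_an
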